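import Pool.Agent.Q78.WI.Stm

/-!
# Lemma E1 of the project on infinite-dimensional Wishart processes

Numbers `eᵢ ≥ 0` which are near `0` or `1/2` cannot have a sum near a number outside `ℕ / 2`.
-/

open MeasureTheory ProbabilityTheory Filter Topology Set
open scoped NNReal InnerProductSpace Matrix

namespace Pool.Agent.Q103.WI

open Pool.Agent.Q78.WI

theorem e1 : S_E1 := by
  intro a ha
  obtain ⟨ρ, hρ, hρm⟩ : ∃ ρ : ℝ, 0 < ρ ∧ ∀ m : ℕ, ρ ≤ |2 * a - m| := by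
    have hc : IsClosed (Set.range (Nat.cast : ℕ → ℝ)) :=
      Nat.isClosedEmbedding_coe_real.isClosed_range
    have hn : 2 * a ∈ (Set.range (Nat.cast : ℕ → ℝ))ᶜ := by
      rintro ⟨m, hm⟩
      exact ha m hm.symm
    obtain ⟨ε, hε, hb⟩ := Metric.mem_nhds_iff.1 (hc.isOpen_compl.mem_nhds hn)
    refine ⟨ε, hε, fun m => ?_⟩
    by_contra hlt
    have hlt' : |2 * a - (m : ℝ)| < ε := not_le.1 hlt
    have : (m : ℝ) ∈ Metric.ball (2 * a) ε := by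
      rw [Metric.mem_ball, Real.dist_eq, abs_sub_comm]
      exact hlt'
    exact hb this ⟨m, rfl⟩
  obtain ⟨K, hKdef⟩ : ∃ K : ℝ, K = |a| + 1 := ⟨_, rfl⟩
  have hK : 0 < K := by
    rw [hKdef]; positivity
  have haK : a + 1 ≤ K := by
    rw [hKdef]; linarith [le_abs_self a]
  obtain ⟨δ, hδdef⟩ : ∃ δ : ℝ, δ = min 1 (min (ρ / 136) (ρ ^ 2 / (1024 * K))) := ⟨_, rfl⟩
  have hδ0 : 0 < δ := by
    rw [hδdef]; positivity
  have hδ1 : δ ≤ 1 := by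
    rw [hδdef]; exact min_le_left _ _
  have hδ2 : δ ≤ ρ / 136 := by
    rw [hδdef]; exact (min_le_right _ _).trans (min_le_left _ _)
  have hδ3 : δ ≤ ρ ^ 2 / (1024 * K) := by
    rw [hδdef]; exact (min_le_right _ _).trans (min_le_right _ _)
  have hδ4 : 16 * δ * K ≤ (ρ / 8) ^ 2 := by
    rw [le_div_iff₀ (by positivity)] at hδ3
    nlinarith
  refine ⟨δ, hδ0, ?_⟩
  intro d e he h1 h2
  obtain ⟨L, hL⟩ : ∃ L : Finset (Fin d), L = Finset.univ.filter (fun i => 1 / 4 ≤ e i) := ⟨_, rfl⟩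
  have hmem : ∀ i, i ∈ L ↔ 1 / 4 ≤ e i := fun i => by simp [hL]
  have hs1 : ∑ i ∈ L, e i + ∑ i ∈ Lᶜ, e i = ∑ i, e i := Finset.sum_add_sum_compl L _
  have hs2 : ∑ i ∈ L, e i * (1 / 2 - e i) ^ 2 + ∑ i ∈ Lᶜ, e i * (1 / 2 - e i) ^ 2
      = ∑ i, e i * (1 / 2 - e i) ^ 2 := Finset.sum_add_sum_compl L _
  have hL0 : 0 ≤ ∑ i ∈ L, e i * (1 / 2 - e i) ^ 2 :=
    Finset.sum_nonneg fun i _ => mul_nonneg (he i) (sq_nonneg _)
  have hC0 : 0 ≤ ∑ i ∈ Lᶜ, e i * (1 / 2 - e i) ^ 2 :=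
    Finset.sum_nonneg fun i _ => mul_nonneg (he i) (sq_nonneg _)
  have hCe0 : 0 ≤ ∑ i ∈ Lᶜ, e i := Finset.sum_nonneg fun i _ => he i
  -- the small ones
  have hsmall : ∑ i ∈ Lᶜ, e i ≤ 16 * δ := by
    have h3 : ∑ i ∈ Lᶜ, e i ≤ ∑ i ∈ Lᶜ, 16 * (e i * (1 / 2 - e i) ^ 2) := by
      refine Finset.sum_le_sum fun i hi => ?_
      have hi' : e i < 1 / 4 := by
        have : i ∉ L := Finset.mem_compl.1 hi
        rw [hmem] at this
        exact not_le.1 this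
      have h4 : (1 / 16 : ℝ) ≤ (1 / 2 - e i) ^ 2 := by nlinarith [he i]
      nlinarith [he i, mul_le_mul_of_nonneg_left h4 (he i)]
    rw [← Finset.mul_sum] at h3
    linarith
  -- the number of large ones
  have hcard : (L.card : ℝ) * (1 / 4) ≤ ∑ i ∈ L, e i := by
    have h3 : ∑ i ∈ L, (1 / 4 : ℝ) ≤ ∑ i ∈ L, e i :=
      Finset.sum_le_sum fun i hi => (hmem i).1 hi
    rwa [Finset.sum_const, nsmul_eq_mul] at h3
  have h5 := abs_le.1 h1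
  have hcard' : (L.card : ℝ) ≤ 4 * K := by linarith [h5.2]
  -- the large ones
  have hlarge : ∑ i ∈ L, (e i - 1 / 2) ^ 2 ≤ 4 * δ := by
    have h3 : ∑ i ∈ L, (e i - 1 / 2) ^ 2 ≤ ∑ i ∈ L, 4 * (e i * (1 / 2 - e i) ^ 2) := by
      refine Finset.sum_le_sum fun i hi => ?_
      have hi' : 1 / 4 ≤ e i := (hmem i).1 hi
      nlinarith [mul_le_mul_of_nonneg_right hi' (sq_nonneg (1 / 2 - e i))]
    rw [← Finset.mul_sum] at h3
    linarith
  have hcs : (∑ i ∈ L, (e i - 1 / 2)) ^ 2 ≤ (L.card : ℝ) * ∑ i ∈ L, (e i - 1 / 2) ^ 2 :=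
    sq_sum_le_card_mul_sum_sq
  have hx : (∑ i ∈ L, (e i - 1 / 2)) ^ 2 ≤ (ρ / 8) ^ 2 := by
    have h6 : (L.card : ℝ) * ∑ i ∈ L, (e i - 1 / 2) ^ 2 ≤ 4 * K * (4 * δ) :=
      mul_le_mul hcard' hlarge (Finset.sum_nonneg fun i _ => sq_nonneg _) (by positivity)
    linarith
  have hx' := abs_le.1 (abs_le_of_sq_le_sq hx (by positivity))
  have hsum : ∑ i ∈ L, (e i - 1 / 2) = ∑ i ∈ L, e i - L.card / 2 := by
    rw [Finset.sum_sub_distrib, Finset.sum_const, nsmul_eq_mul]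
    ring
  rw [hsum] at hx'
  have h7 := hρm L.card
  rcases le_abs.1 h7 with h8 | h8
  · linarith [h5.1, h5.2, hx'.1, hx'.2]
  · linarith [h5.1, h5.2, hx'.1, hx'.2]

end Pool.Agent.Q103.WI
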